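import Pool.Agent.Lib.MP_399f8e_an.Lk.AMain

open MeasureTheory

noncomputable section

namespace Pool.Agent.Results.MP_399f8e_an.LinkingForm

/-- Euclidean four-space. -/
abbrev R4 : Type := EuclideanSpace ℝ (Fin 4)

/-- The unit sphere of `R4`. -/
abbrev S3 : Type := Metric.sphere (0 : R4) 1

/-- The determinant of four vectors. -/
def vol (x u v w : R4) : ℝ :=
  (Matrix.of ![fun k => x k, fun k => u k, fun k => v k, fun k => w k]).det

/-- The radial factor of the Gauss linking integral on the three-sphere. For `c = cos α` it is the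
quotient of `sin α + (π - α) cos α` by `2 sin α ^ 3`. -/
def gaussK (c : ℝ) : ℝ :=
  ∫ u in (0 : ℝ)..1, u * (1 - u) / ((1 - u) ^ 2 + u ^ 2 - 2 * u * (1 - u) * c) ^ 2

/-- The Gauss linking integrand evaluated on the vector field `X` at a pair of points. -/
def gauss (X : S3 → R4) (p : S3 × S3) : ℝ :=
  gaussK (inner ℝ (p.1 : R4) (p.2 : R4)) * vol p.1 (X p.1) p.2 (X p.2)

/-- The average asymptotic linking number of two measures (up to a fixed non-zero factor). -/
def lk (X : S3 → R4) (μ ν : Measure S3) : ℝ := ∫ p, gauss X p ∂(μ.prod ν)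

/-- `μ` is a Borel probability measure invariant under the flow. -/
def IsInv (φ : ℝ → S3 → S3) (μ : Measure S3) : Prop :=
  IsProbabilityMeasure μ ∧ ∀ t, MeasurePreserving (φ t) μ μ

/-- Let `φ` be the flow of a Lipschitz vector field `X` on the three-sphere, without periodic point.
Then there are invariant probability measures `μ`, `ν` (the Gauss integrals converge absolutely) with
`4 lk(μ, ν) ^ 2 ≤ lk(μ, μ) lk(ν, ν)`. -/
theorem result (X : S3 → R4) (L : NNReal) (hX : LipschitzWith L X) (φ : ℝ → S3 → S3)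
    (h0 : ∀ x, φ 0 x = x)
    (hφ : ∀ (x : S3) (t : ℝ), HasDerivAt (fun s => (φ s x : R4)) (X (φ t x)) t)
    (haper : ∀ (x : S3) (t : ℝ), 0 < t → φ t x ≠ x) :
    ∃ μ ν : Measure S3, IsInv φ μ ∧ IsInv φ ν ∧ Integrable (gauss X) (μ.prod ν) ∧
      Integrable (gauss X) (μ.prod μ) ∧ Integrable (gauss X) (ν.prod ν) ∧
      4 * lk X μ ν ^ 2 ≤ lk X μ μ * lk X ν ν :=
  Pool.Agent.Lib.MP_399f8e_an.Lk.main hX h0 hφ haper

end Pool.Agent.Results.MP_399f8e_an.LinkingForm
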