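import Pool.Agent.Lib.MP_399f8e_an.Rp.Tc

open MeasureTheory

noncomputable section

namespace Pool.Agent.Results.MP_399f8e_an.ReversibleSprays

/-- The real quaternions. -/
abbrev H : Type := Quaternion ℝ

/-- The three-sphere of unit quaternions. -/
abbrev S3 : Type := Metric.sphere (0 : H) 1

/-- The quaternion unit `i`. -/
def qi : H := ⟨0, 1, 0, 0⟩

/-- The quaternion unit `k`. -/
def qk : H := ⟨0, 0, 0, 1⟩

/-- Let `φ` be the flow on the unit quaternions of the field `X(q) = a(q) q (k + lam(q) i)`, with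
`a > 0` continuous and `lam` Lipschitz with `lam(q i) = -lam(q)` (the lift of a reversible second
order equation on the two-sphere, with any time change). Then the three-sphere has a proper
nonempty closed invariant subset `K` that is a periodic orbit or carries every invariant Borel
probability measure. -/
theorem result [MeasurableSpace S3] [BorelSpace S3] (a lam : S3 → ℝ) (L : NNReal)
    (φ : ℝ → S3 → S3) (ha : Continuous a) (ha0 : ∀ q, 0 < a q) (hlip : LipschitzWith L lam)
    (hodd : ∀ q q' : S3, (q' : H) = (q : H) * qi → lam q' = -lam q) (h0 : ∀ q, φ 0 q = q)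
    (hd : ∀ q t, HasDerivAt (fun s => (φ s q : H))
      (a (φ t q) • ((φ t q : H) * (qk + lam (φ t q) • qi))) t) :
    ∃ K : Set S3, IsClosed K ∧ K.Nonempty ∧ K ≠ Set.univ ∧ (∀ t, ∀ q ∈ K, φ t q ∈ K) ∧
      ((∃ q T, 0 < T ∧ φ T q = q ∧ K = Set.range fun t => φ t q) ∨
        ∀ μ : Measure S3, IsProbabilityMeasure μ → (∀ t, MeasurePreserving (φ t) μ μ) →
          μ (compl K) = 0) := by
  refine Pool.Agent.Lib.MP_399f8e_an.Rp.main (a := fun q => 2 * a q) (lam := lam) (L := L)
    (continuous_const.mul ha) (fun q => by linarith [ha0 q]) L.2 (fun q q' => ?_)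
    (fun q => hodd q _ rfl) h0 fun q t => (hd q t).congr_deriv ?_
  · have h := hlip.dist_le_mul q q'
    rwa [Real.dist_eq, Subtype.dist_eq, dist_eq_norm] at h
  · rw [Pool.Agent.Lib.MP_399f8e_an.Rp.Xf, smul_smul]
    congr 1
    ring

end Pool.Agent.Results.MP_399f8e_an.ReversibleSprays
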