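import Pool.Agent.Lib.MP_399f8e_an.Sg.Main

open scoped Manifold ContDiff

noncomputable section

namespace Pool.Agent.Results.MP_399f8e_an.SlowGrowth

/-- Euclidean four-space. -/
abbrev R4 : Type := EuclideanSpace ℝ (Fin 4)

/-- The unit sphere of `R4`. -/
abbrev S3 : Type := Metric.sphere (0 : R4) 1

/-- A flow on the three-sphere, jointly of class `C^3`. -/
def IsC3Flow [Fact (Module.finrank ℝ R4 = 3 + 1)] (φ : ℝ → S3 → S3) : Prop :=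
  ContMDiff (𝓘(ℝ, ℝ).prod (𝓡 3)) (𝓡 3) 3 (fun p : ℝ × S3 => φ p.1 p.2) ∧
    (∀ x, φ 0 x = x) ∧ ∀ s t : ℝ, ∀ x, φ (s + t) x = φ s (φ t x)

/-- Let `φ` be a `C^3` flow on the three-sphere without periodic point. Then the Lipschitz constants
of the time maps grow at least like `(T / log T) ^ (1 / 4)`, at every time scale `T`. -/
theorem result [Fact (Module.finrank ℝ R4 = 3 + 1)] (φ : ℝ → S3 → S3) (hφ : IsC3Flow φ)
    (haper : ∀ (x : S3) (t : ℝ), 0 < t → φ t x ≠ x) :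
    ∃ κ : ℝ, 0 < κ ∧ ∀ T K : ℝ, 2 ≤ T →
      (∀ t : ℝ, |t| ≤ T → ∀ x y : S3, ‖(φ t x : R4) - φ t y‖ ≤ K * ‖(x : R4) - y‖) →
      κ * T ≤ K ^ 4 * Real.log T :=
  Pool.Agent.Lib.MP_399f8e_an.Sg.main hφ.1 ⟨hφ.1.continuous, hφ.2.1, hφ.2.2⟩ haper

end Pool.Agent.Results.MP_399f8e_an.SlowGrowth
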